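import Mathlib
import Pool.Agent.V11179.AGLDefs
import Pool.Agent.V11179.AGLVan

/-!
# Vanishing of exact-stabilizer counts for k-subsets under AGL(1, F_q)

Complete answer to the question of MP_6575fe_co: for `3 ≤ k ≤ q / 2` and `k ≡ 0` or `|H|`
modulo `d |H|` the number `N(S_{d,H}, k)` is zero exactly in the following cases:
`k = |H|` and `d ≠ |H'| - 1`; `k = 2 |H|` and `d = 1`; `k = p ^ s |H|` and `d = p ^ s - 1` for
some `s ≥ 1`; `q = 7 |H|`, `k = 3 |H|` and `d = 1`.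
-/

namespace Pool.Agent.Results.MP_6575fe_co.Classification

open Pool.Agent.V11179.AGL

theorem result :
    ∀ (K : Type) [Field K] [Finite K] (p : ℕ) [CharP K p], p.Prime →
    ∀ (d k : ℕ) (H : AddSubgroup K), d ∣ Nat.card K - 1 →
    (∀ ζ : K, ζ ^ d = 1 → ∀ h ∈ H, ζ * h ∈ H) →
    3 ≤ k → 2 * k ≤ Nat.card K →
    (k ≡ 0 [MOD d * Nat.card H] ∨ k ≡ Nat.card H [MOD d * Nat.card H]) →
    (stabCount K d H k = 0 ↔
      ((k = Nat.card H ∧ d ≠ multCard H - 1) ∨
        (k = 2 * Nat.card H ∧ d = 1) ∨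
        (∃ s, 1 ≤ s ∧ d = p ^ s - 1 ∧ k = p ^ s * Nat.card H) ∨
        (Nat.card K = 7 * Nat.card H ∧ k = 3 * Nat.card H ∧ d = 1))) := by
  intro K _ _ p _ hp d k H hd hH hk3 hkq hmod
  have := Fintype.ofFinite K
  rw [stabCount_eq_zero_iff, multCard_eq]
  rw [Nat.card_eq_fintype_card] at hd hkq
  rw [← card_Hf H] at hmod ⊢
  rw [Nat.card_eq_fintype_card (α := K)]
  exact classification hp hd hH hk3 hkq hmod

end Pool.Agent.Results.MP_6575fe_co.Classification
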